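import Pool.Agent.TH466.QG.Sysc

/-!
Project CF, job WAR (helper564): derivations which kill the ratios of circuits of a system of sums
of few high powers of linear forms are combinations of ruling derivations.
-/

set_option autoImplicit false
set_option linter.overlappingInstances false
set_option linter.unusedSectionVars false

open FF IntermediateField Pool.Agent.W603.LV

namespace Pool.Agent.Y564.CF

open Pool.Agent.W602.GT Pool.Agent.TH466.QG

variable {k : Type} [Field k] {n : ℕ} {ι : Type}

/-- a derivation which kills a subfield `C` with `K = C(σ)` -/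
def Rul {K : Type} [Field K] [Algebra k K] (δ : Derivation k K K) : Prop :=
  ∃ (C : IntermediateField k K) (σ : K), Transcendental C σ ∧ C⟮σ⟯ = ⊤ ∧ ∀ c ∈ C, δ c = 0

/-- step 1: the linear equations -/
theorem war_eqs [IsAlgClosed k] [CharZero k] {K : Type} [Field K] [Algebra k K]
    {F : ι → MvPolynomial (Fin (n + 1)) k}
    {s N : ℕ} (hF : ∀ e, IsPowSum s N (F e)) (hN1 : 1 ≤ N)
    {y : Fin (n + 1) → K} (hyF : ∀ e, val y (F e) = 0) (D : Derivation k K K)
    (hDc : ∀ (m d : ℕ) (U : Fin (m + 1) → K) (c : Fin (m + 1) → k), m + 1 ≤ s → N ≤ d →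
      (∀ j, U j ≠ 0) → (∀ j, c j ≠ 0) → ∑ j, c j • U j ^ d = 0 →
      LinearIndependent k (fun l => c ((Fin.last m).succAbove l) •
        U ((Fin.last m).succAbove l) ^ d) →
      ∀ a b, D ((c a • U a ^ d) / (c b • U b ^ d)) = 0) :
    ∃ (Z : Set (Fin (n + 1) → k)) (Q : Set ((Fin (n + 1) → k) × (Fin (n + 1) → k))),
      (∀ l ∈ Z, lin l y = 0) ∧
      (∀ p ∈ Q, lin p.1 y ≠ 0 ∧ lin p.2 y ≠ 0 ∧ D (lin p.1 y / lin p.2 y) = 0) ∧
      ∀ (M : Type) [Field M] [Algebra k M] [Algebra K M] [IsScalarTower k K M]
        (x : Fin (n + 1) → M), (∀ l ∈ Z, lin l x = 0) →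
        (∀ p ∈ Q, lin p.1 x = algebraMap K M (lin p.1 y / lin p.2 y) * lin p.2 x) →
        ∀ e, val x (F e) = 0 := by
  classical
  choose r d l hr hd hFe using hF
  have hK : CharZero K := charZero_of_injective_algebraMap (algebraMap k K).injective
  let L : ∀ e, Fin (r e) → (Fin (n + 1) → K) → K := fun e j x => lin (l e j) x
  have hvalM : ∀ (M : Type) [Field M] [Algebra k M] (x : Fin (n + 1) → M) e,
      val x (F e) = ∑ j, lin (l e j) x ^ d e := by
    intro M _ _ x e
    unfold Pool.Agent.W602.GT.val
    rw [hFe e, map_sum]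
    refine Finset.sum_congr rfl fun j _ => ?_
    rw [map_pow, map_sum]
    simp only [map_mul, MvPolynomial.aeval_C, MvPolynomial.aeval_X]
    rfl
  have hval : ∀ (x : Fin (n + 1) → K) e, val x (F e) = ∑ j, L e j x ^ d e := hvalM K
  have hd0 : ∀ e, 0 < d e := fun e => lt_of_lt_of_le hN1 (hd e)
  let J : ι → Type := fun e => {j : Fin (r e) // L e j y ≠ 0}
  let g : ∀ e, J e → K := fun e j => L e j.1 y ^ d e
  have hg : ∀ e j, g e j ≠ 0 := fun e j => pow_ne_zero _ j.2
  have hsub : ∀ (M : Type) [Field M] (e : ι) (f : Fin (r e) → M), (∀ j, L e j y = 0 → f j = 0) →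
      ∑ j, f j = ∑ j : J e, f j.1 := by
    intro M _ e f hf
    rw [← Finset.sum_subtype (Finset.univ.filter fun j => L e j y ≠ 0) (by simp) f]
    rw [Finset.sum_filter_of_ne]
    intro j _ hj h0
    exact hj (hf j h0)
  have hsum : ∀ e, ∑ j, g e j = 0 := by
    intro e
    rw [← hsub K e (fun j => L e j y ^ d e) (fun j hj => by rw [hj, zero_pow (hd0 e).ne']), ← hval]
    exact hyF e
  have hcard : ∀ e, Fintype.card (J e) ≤ s := fun e =>
    (Fintype.card_subtype_le _).trans (by rw [Fintype.card_fin]; exact hr e)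
  let R : ∀ e, J e → J e → Prop := fun e i j => D (g e i) * g e j = g e i * D (g e j)
  have hRe : ∀ e, Equivalence (R e) := by
    intro e
    refine ⟨fun i => mul_comm _ _, ?_, ?_⟩
    · intro i j h
      have h' : D (g e i) * g e j = g e i * D (g e j) := h
      show D (g e j) * g e i = g e j * D (g e i)
      linear_combination -h'
    · intro i j l h1 h2
      have h1' : D (g e i) * g e j = g e i * D (g e j) := h1
      have h2' : D (g e j) * g e l = g e j * D (g e l) := h2
      show D (g e i) * g e l = g e i * D (g e l)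
      have hj := hg e j
      apply mul_right_cancel₀ hj
      linear_combination (g e l) * h1' + (g e i) * h2'
  have hRD : ∀ e (i j : J e), R e i j → D (g e i) * g e j = g e i * D (g e j) :=
    fun e i j h => h
  have hRs : ∀ e (j0 : J e) (A : Finset (J e)), (∀ j, j ∈ A ↔ R e j0 j) →
      ∑ j ∈ A, g e j = 0 := by
    intro e j0 A hA
    have key := class_sum (k := k) (g e) (R e) (hRe e)
      (by
        intro m em hem c hc hrel hlin i j
        have hms : m + 1 ≤ s := by
          have := Fintype.card_le_of_injective _ hem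
          simp only [Fintype.card_fin] at this
          exact this.trans (hcard e)
        have h1 : D ((c i • g e (em i)) / (c j • g e (em j))) = 0 :=
          hDc m (d e) (fun j => L e (em j).1 y) c hms (hd e) (fun j => (em j).2) hc hrel hlin i j
        have hca : algebraMap k K (c i) ≠ 0 := by
          rw [Ne, map_eq_zero]; exact hc i
        have hcb : algebraMap k K (c j) ≠ 0 := by
          rw [Ne, map_eq_zero]; exact hc j
        have hga := hg e (em i)
        have hgb := hg e (em j)
        rw [Algebra.smul_def, Algebra.smul_def, div_eq_mul_inv, D.leibniz, D.leibniz_inv,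
          D.leibniz, D.leibniz, D.map_algebraMap, D.map_algebraMap] at h1
        simp only [smul_eq_mul, mul_zero, add_zero] at h1
        field_simp at h1
        rw [mul_zero] at h1
        have h2 := (mul_eq_zero.1 h1).resolve_left hca
        show D (g e (em i)) * g e (em j) = g e (em i) * D (g e (em j))
        linear_combination h2)
      (Finset.univ.filter fun j => (fun _ : J e => (1 : k)) j ≠ 0).card (fun _ => 1) le_rfl
      (by simpa using hsum e) j0
    simp only [one_smul] at key
    rw [← key]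
    exact Finset.sum_congr (by ext j; simp [hA]) (fun _ _ => rfl)
  refine ⟨{z | ∃ e j, L e j y = 0 ∧ z = l e j},
    {p | ∃ (e : ι) (i j : J e), R e i j ∧ p = (l e i.1, l e j.1)}, ?_, ?_, ?_⟩
  · rintro z ⟨e, j, hj, rfl⟩
    exact hj
  · rintro p ⟨e, i, j, hij, rfl⟩
    have h2 := hRD e i j hij
    have hi := i.2
    have hj := j.2
    refine ⟨hi, hj, ?_⟩
    have hde : (d e : K) ≠ 0 := by exact_mod_cast (hd0 e).ne'
    change D (L e i.1 y ^ d e) * L e j.1 y ^ d e = L e i.1 y ^ d e * D (L e j.1 y ^ d e) at h2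
    have hpow : ∀ x : K, x ≠ 0 → D (x ^ d e) = d e * x ^ d e * (D x / x) := by
      intro x hx
      rw [D.leibniz_pow]
      obtain ⟨q, hq⟩ : ∃ q, d e = q + 1 := ⟨d e - 1, by have := hd0 e; omega⟩
      rw [hq]
      simp only [nsmul_eq_mul, smul_eq_mul, Nat.add_sub_cancel]
      field_simp
      ring
    rw [hpow _ hi, hpow _ hj] at h2
    have h3 : D (L e i.1 y) / L e i.1 y = D (L e j.1 y) / L e j.1 y := by
      have h4 : (d e : K) * L e i.1 y ^ d e * L e j.1 y ^ d e ≠ 0 :=
        mul_ne_zero (mul_ne_zero hde (pow_ne_zero _ hi)) (pow_ne_zero _ hj)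
      apply mul_left_cancel₀ h4
      linear_combination h2
    change D (L e i.1 y / L e j.1 y) = 0
    rw [div_eq_mul_inv, D.leibniz, D.leibniz_inv]
    simp only [smul_eq_mul]
    field_simp at h3 ⊢
    linear_combination h3
  · intro M _ _ _ _ x hZ hQ e
    rw [hvalM, hsub M e (fun j => lin (l e j) x ^ d e) (fun j hj => by
      rw [hZ _ ⟨e, j, hj, rfl⟩, zero_pow (hd0 e).ne'])]
    have hy0 : ∀ j : J e, algebraMap K M (L e j.1 y) ≠ 0 := fun j => by
      rw [Ne, map_eq_zero]
      exact j.2
    have h1 := weighted_sum (R e) (hRe e) (fun j : J e => algebraMap K M (g e j))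
      (fun j => (lin (l e j.1) x / algebraMap K M (L e j.1 y)) ^ d e)
      (fun i j hij => by
        have h2 := hQ _ ⟨e, i, j, hij, rfl⟩
        change lin (l e i.1) x = algebraMap K M (L e i.1 y / L e j.1 y) * lin (l e j.1) x at h2
        rw [map_div₀] at h2
        have := hy0 i
        have := hy0 j
        congr 1
        rw [h2]
        field_simp)
      (fun j0 A hA => by
        rw [← map_sum, hRs e j0 A hA, map_zero])
    refine Eq.trans (Finset.sum_congr rfl fun j _ => ?_) h1
    have := hy0 j
    change _ = _ * algebraMap K M (L e j.1 y ^ d e)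
    rw [map_pow, ← mul_pow]
    congr 1
    field_simp

/-- step 3: the derivation of a flow -/
theorem flow_der [IsAlgClosed k] [CharZero k] {F : ι → MvPolynomial (Fin (n + 1)) k}
    {K : Type} [Field K] [Algebra k K] {w : ℕ} {y : Fin (n + 1) → K} (hy : SubVar F K w y)
    (hcomp : IsComponent F y) {i0 : Fin (n + 1)} (hi0 : y i0 ≠ 0) (v : Fin (n + 1) → K)
    (hv0 : v i0 = 0) (Z : Set (Fin (n + 1) → k))
    (Q : Set ((Fin (n + 1) → k) × (Fin (n + 1) → k))) (hZ : ∀ l ∈ Z, lin l y = 0)
    (hZv : ∀ l ∈ Z, lin l v = 0) (hQ : ∀ p ∈ Q, lin p.1 y ≠ 0 ∧ lin p.2 y ≠ 0)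
    (hQv : ∀ p ∈ Q, lin p.1 v = (lin p.1 y / lin p.2 y) * lin p.2 v)
    (hx : ∀ (M : Type) [Field M] [Algebra k M] [Algebra K M] [IsScalarTower k K M]
        (x : Fin (n + 1) → M), (∀ l ∈ Z, lin l x = 0) →
        (∀ p ∈ Q, lin p.1 x = algebraMap K M (lin p.1 y / lin p.2 y) * lin p.2 x) →
        ∀ e, val x (F e) = 0) (E : IntermediateField k K)
    (hE : E = IntermediateField.adjoin k {z | ∃ p ∈ Q, z = lin p.1 y / lin p.2 y})
    (ℓ : K →ₗ[E] E) :
    ∃ δ : Derivation k K K, δ ∈ Submodule.span K {δ : Derivation k K K | Rul δ} ∧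
      ∀ l, δ (y l / y i0) = (ℓ (v l) : K) := by
  classical
  by_cases hall : ∀ l, ℓ (v l) = 0
  · refine ⟨0, Submodule.zero_mem _, fun l => ?_⟩
    rw [hall l]
    rfl
  push Not at hall
  obtain ⟨j0, hℓ⟩ := hall
  have hrE : ∀ p ∈ Q, lin p.1 y / lin p.2 y ∈ E := fun p hp => by
    rw [hE]
    exact IntermediateField.subset_adjoin k _ ⟨p, hp, rfl⟩
  let e : Fin (n + 1) → E := fun l => ℓ (v l) / ℓ (v j0)
  have heJ : (e j0 : K) = 1 := by
    simp only [e]
    rw [div_self hℓ]
    rfl
  have heI : (e i0 : K) = 0 := by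
    simp only [e]
    rw [hv0, map_zero, zero_div]
    rfl
  have hle : ∀ l : Fin (n + 1) → k, lin l (fun i => (e i : K)) = ((ℓ (lin l v) / ℓ (v j0) : E) : K) := by
    intro l
    unfold lin
    rw [map_sum]
    have h1 : ∀ i, ℓ (algebraMap k K (l i) * v i) = algebraMap k E (l i) * ℓ (v i) := by
      intro i
      have h2 : algebraMap k K (l i) * v i = (algebraMap k E (l i)) • v i := by
        rw [Algebra.smul_def]
        rfl
      rw [h2, map_smul, smul_eq_mul]
    simp only [h1]
    rw [Finset.sum_div]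
    push_cast
    refine Finset.sum_congr rfl fun i _ => ?_
    simp only [e]
    push_cast
    rw [mul_div_assoc]
  have hZe : ∀ l ∈ Z, lin l (fun i => (e i : K)) = 0 := by
    intro l hl
    rw [hle, hZv l hl, map_zero, zero_div]
    rfl
  have hQe : ∀ p ∈ Q, lin p.1 (fun i => (e i : K)) =
      (lin p.1 y / lin p.2 y) * lin p.2 (fun i => (e i : K)) := by
    intro p hp
    rw [hle, hle, hQv p hp]
    have h2 : (lin p.1 y / lin p.2 y) * lin p.2 v =
        (⟨lin p.1 y / lin p.2 y, hrE p hp⟩ : E) • lin p.2 v := by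
      rw [Algebra.smul_def]
      rfl
    rw [h2, map_smul, smul_eq_mul, mul_div_assoc]
    rfl
  -- the flow
  have hinj : Function.Injective (algebraMap (Polynomial K) (RatFunc K)) :=
    RatFunc.algebraMap_injective K
  let P : Fin (n + 1) → Polynomial K := fun l =>
    Polynomial.C (y l) + Polynomial.C (y i0 * e l) * Polynomial.X
  let y' : Fin (n + 1) → RatFunc K := fun l => algebraMap (Polynomial K) (RatFunc K) (P l)
  have hC : ∀ c : K, algebraMap (Polynomial K) (RatFunc K) (Polynomial.C c) =
      algebraMap K (RatFunc K) c := fun c => by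
    rw [IsScalarTower.algebraMap_apply K (Polynomial K) (RatFunc K)]
    rfl
  have hy'l : ∀ l, y' l = 1 * algebraMap K (RatFunc K) (y l) +
      RatFunc.X * algebraMap K (RatFunc K) (y i0) * algebraMap K (RatFunc K) (e l) := by
    intro l
    simp only [y', P]
    rw [map_add, map_mul, hC, hC, RatFunc.algebraMap_X, map_mul]
    ring
  have hliny' : ∀ l : Fin (n + 1) → k, lin l y' = algebraMap K (RatFunc K) (lin l y) +
      RatFunc.X * algebraMap K (RatFunc K) (y i0) *
        algebraMap K (RatFunc K) (lin l (fun i => (e i : K))) := by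
    intro l
    have h1 : y' = fun i => 1 * algebraMap K (RatFunc K) (y i) +
      (RatFunc.X * algebraMap K (RatFunc K) (y i0)) * algebraMap K (RatFunc K) (e i) := by
      funext i
      exact hy'l i
    have h2 : ∀ x : Fin (n + 1) → K, algebraMap K (RatFunc K) (lin l x) =
        lin l (fun i => algebraMap K (RatFunc K) (x i)) := fun x =>
      lin_map (IsScalarTower.toAlgHom k K (RatFunc K)) l x
    rw [h1, lin_add_smul, h2, h2]
    ring
  have hyF : ∀ a, val y' (F a) = 0 := by
    refine hx (RatFunc K) y' (fun l hl => ?_) (fun p hp => ?_)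
    · rw [hliny', hZ l hl, hZe l hl, map_zero, mul_zero, add_zero]
    · rw [hliny', hliny', hQe p hp]
      obtain ⟨h1, h2⟩ := hQ p hp
      have h3 : algebraMap K (RatFunc K) (lin p.2 y) ≠ 0 := by rw [Ne, map_eq_zero]; exact h2
      rw [map_mul, map_div₀]
      field_simp
  have hspec : ∀ G : MvPolynomial (Fin (n + 1)) k, IsForm G → val y' G = 0 → val y G = 0 := by
    intro G _ h1
    obtain ⟨R, hR1, hR2⟩ := val_polyK P G
    have h2 : R = 0 := hinj (by rw [hR2, map_zero]; exact h1)
    have h3 := hR1 0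
    rw [h2, Polynomial.eval_zero] at h3
    have h4 : (fun l => (P l).eval 0) = y := by
      funext l
      simp [P]
    rw [h4] at h3
    exact h3.symm
  have hy'i : y' i0 = algebraMap K (RatFunc K) (y i0) := by
    rw [hy'l, heI, map_zero]
    ring
  have hyi' : algebraMap K (RatFunc K) (y i0) ≠ 0 := by rw [Ne, map_eq_zero]; exact hi0
  have hy'i0 : y' i0 ≠ 0 := by rw [hy'i]; exact hyi'
  obtain ⟨φ, hφ⟩ := exists_embedding (L := RatFunc K) hi0 hy'i0 hy.gen
    (same_relations hcomp (fun h1 => hy'i0 (congrFun h1 i0)) hyF hspec)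
  let u : Fin (n + 1) → K := fun l => y l / y i0
  have hφu : ∀ l, φ (u l) = algebraMap K (RatFunc K) (u l) +
      RatFunc.X * algebraMap K (RatFunc K) (e l) := by
    intro l
    simp only [u]
    rw [hφ, hy'i, hy'l, map_div₀]
    field_simp
  have hφE : ∀ x ∈ E, φ x = algebraMap K (RatFunc K) x := by
    intro x hx
    rw [hE] at hx
    induction hx using IntermediateField.adjoin_induction with
    | mem x hx =>
      obtain ⟨p, hp, rfl⟩ := hx
      obtain ⟨h1, h2⟩ := hQ p hp
      have h3 : ∀ l : Fin (n + 1) → k, lin l u = lin l y / y i0 := fun l => lin_div l y (y i0)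
      have h4 : lin p.1 y / lin p.2 y = lin p.1 u / lin p.2 u := by
        rw [h3, h3]
        field_simp
      have h5 : ∀ l : Fin (n + 1) → k, φ (lin l u) = algebraMap K (RatFunc K) (lin l u) +
          RatFunc.X * algebraMap K (RatFunc K) (lin l (fun i => (e i : K))) := by
        intro l
        have h6 : ∀ x : Fin (n + 1) → K, algebraMap K (RatFunc K) (lin l x) =
            lin l (fun i => algebraMap K (RatFunc K) (x i)) := fun x =>
          lin_map (IsScalarTower.toAlgHom k K (RatFunc K)) l x
        rw [lin_map, h6, h6]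
        have h7 := lin_add_smul l (fun i => algebraMap K (RatFunc K) (u i))
          (fun i => algebraMap K (RatFunc K) (e i)) 1 RatFunc.X
        simp only [one_mul] at h7
        rw [← h7]
        congr 1
        funext i
        exact hφu i
      have hu2 : lin p.2 u ≠ 0 := by rw [h3]; exact div_ne_zero h2 hi0
      have h6 : φ (lin p.2 u) ≠ 0 := by rw [Ne, map_eq_zero]; exact hu2
      have h7 : φ (lin p.1 u) = algebraMap K (RatFunc K) (lin p.1 u / lin p.2 u) *
          φ (lin p.2 u) := by
        rw [h5, h5, hQe p hp, h4]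
        have h8 : algebraMap K (RatFunc K) (lin p.2 u) ≠ 0 := by rw [Ne, map_eq_zero]; exact hu2
        rw [map_mul, map_div₀]
        field_simp
      rw [h4, map_div₀, h7]
      field_simp
    | algebraMap c =>
      rw [φ.commutes]
      exact IsScalarTower.algebraMap_apply k K (RatFunc K) c
    | add x y _ _ hx hy => rw [map_add, map_add, hx, hy]
    | inv x _ hx => rw [map_inv₀, map_inv₀, hx]
    | mul x y _ _ hx hy => rw [map_mul, map_mul, hx, hy]
  let z : Fin (n + 1) → K := fun l => u l - e l * u j0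
  have hφz : ∀ l, φ (z l) = algebraMap K (RatFunc K) (z l) := by
    intro l
    simp only [z]
    rw [map_sub, map_mul, hφu, hφu, hφE _ (e l).2, heJ, map_sub, map_mul, map_one]
    ring
  set C : IntermediateField k K := IntermediateField.adjoin k
    ((E : Set K) ∪ Set.range z) with hCdef
  have hEC : E ≤ C := fun x hx => IntermediateField.subset_adjoin k _ (Or.inl hx)
  have hzC : ∀ l, z l ∈ C := fun l => IntermediateField.subset_adjoin k _ (Or.inr ⟨l, rfl⟩)
  have hφC : ∀ x ∈ C, φ x = algebraMap K (RatFunc K) x := by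
    intro x hx
    induction hx using IntermediateField.adjoin_induction with
    | mem x hx =>
      rcases hx with hx | ⟨l, rfl⟩
      · exact hφE x hx
      · exact hφz l
    | algebraMap c =>
      rw [φ.commutes]
      exact IsScalarTower.algebraMap_apply k K (RatFunc K) c
    | add x y _ _ hx hy => rw [map_add, map_add, hx, hy]
    | inv x _ hx => rw [map_inv₀, map_inv₀, hx]
    | mul x y _ _ hx hy => rw [map_mul, map_mul, hx, hy]
  have htr : Transcendental C (u j0) := by
    intro halg
    let φ' : K →ₐ[C] RatFunc K := { φ with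
      commutes' := fun c => by
        change φ (c : K) = _
        rw [hφC _ c.2]
        rfl }
    have h1 : IsAlgebraic C (φ' (u j0)) := halg.algHom φ'
    have h2 : IsAlgebraic K (φ' (u j0)) := h1.tower_top K
    have h3 : φ' (u j0) = algebraMap K (RatFunc K) (u j0) + RatFunc.X := by
      change φ (u j0) = _
      rw [hφu, heJ, map_one, mul_one]
    rw [h3] at h2
    have h4 := h2.sub (isAlgebraic_algebraMap (A := RatFunc K) (u j0))
    rw [add_sub_cancel_left] at h4
    exact RatFunc.transcendental_X h4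
  have htop : C⟮u j0⟯ = ⊤ := by
    have h1 : (C⟮u j0⟯).restrictScalars k = ⊤ := by
      rw [eq_top_iff, ← hy.gen]
      unfold coords
      rw [IntermediateField.adjoin_le_iff]
      have hu : ∀ l, u l ∈ C⟮u j0⟯ := by
        intro l
        have h2 : u l = z l + e l * u j0 := by
          simp only [z]
          ring
        rw [h2]
        refine add_mem ?_ (mul_mem ?_ (IntermediateField.mem_adjoin_simple_self _ _))
        · exact (C⟮u j0⟯).algebraMap_mem (⟨z l, hzC l⟩ : C)
        · exact (C⟮u j0⟯).algebraMap_mem (⟨e l, hEC (e l).2⟩ : C)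
      rintro _ ⟨a, b, hb, rfl⟩
      have h3 := div_mem (hu a) (hu b)
      simp only [u] at h3
      have h4 : y a / y i0 / (y b / y i0) = y a / y b := by field_simp
      rw [h4] at h3
      exact h3
    rw [eq_top_iff]
    intro x _
    have h2 : x ∈ (C⟮u j0⟯).restrictScalars k := by
      rw [h1]; exact IntermediateField.mem_top
    exact h2
  have hbasis : IsTranscendenceBasis C (fun _ : Unit => u j0) := by
    have h1 : AlgebraicIndependent C (fun _ : Unit => u j0) :=
      (algebraicIndependent_unique_type_iff).2 htr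
    rw [h1.isTranscendenceBasis_iff_isAlgebraic]
    apply alg_adjoin
    have h2 : Set.range (fun _ : Unit => u j0) = {u j0} := by simp
    rw [h2, htop]
    infer_instance
  have hcharC : CharZero C := charZero_of_injective_algebraMap (algebraMap k C).injective
  obtain ⟨δ0, hδ0⟩ := exists_der (fun _ : Unit => u j0) hbasis (fun _ => (ℓ (v j0) : K))
  have hδC : ∀ c ∈ C, (δ0.restrictScalars k : Derivation k K K) c = 0 := by
    intro c hc
    have h1 : c = algebraMap C K ⟨c, hc⟩ := rfl
    change δ0 c = 0
    rw [h1]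
    exact δ0.map_algebraMap _
  refine ⟨δ0.restrictScalars k, Submodule.subset_span ⟨C, u j0, htr, htop, hδC⟩, fun l => ?_⟩
  have h1 : y l / y i0 = z l + e l * u j0 := by
    simp only [z, u]
    ring
  have h2 : (δ0.restrictScalars k : Derivation k K K) (u j0) = (ℓ (v j0) : K) := hδ0 ()
  have h3 : ((ℓ (v j0) : E) : K) ≠ 0 := by
    intro h0
    apply hℓ
    exact_mod_cast h0
  rw [h1, map_add, Derivation.leibniz, hδC _ (hzC l), hδC _ (hEC (e l).2), h2]
  simp only [smul_zero, smul_eq_mul, add_zero, zero_add, mul_zero, e]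
  push_cast
  field_simp

theorem der_sum_apply {K : Type} [Field K] [Algebra k K] {α : Type} (T : Finset α)
    (f : α → Derivation k K K) (x : K) : (∑ i ∈ T, f i) x = ∑ i ∈ T, f i x := by
  induction T using Finset.cons_induction with
  | empty => simp
  | cons a s ha ih => rw [Finset.sum_cons, Finset.sum_cons, Derivation.add_apply, ih]

/-- two derivations which agree on the ratios of the coordinates are equal -/
theorem der_ext {K : Type} [Field K] [Algebra k K] {y : Fin (n + 1) → K} (hgen : coords k y = ⊤)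
    {i0 : Fin (n + 1)} (hi0 : y i0 ≠ 0) (D : Derivation k K K)
    (h : ∀ l, D (y l / y i0) = 0) : D = 0 := by
  have h1 : consts D = ⊤ := by
    rw [eq_top_iff, ← hgen]
    unfold coords
    rw [IntermediateField.adjoin_le_iff]
    rintro _ ⟨a, b, hb, rfl⟩
    have h3 := div_mem (show y a / y i0 ∈ consts D from h a) (show y b / y i0 ∈ consts D from h b)
    have h4 : y a / y i0 / (y b / y i0) = y a / y b := by field_simp
    rw [h4] at h3
    exact h3
  ext x
  have h2 : x ∈ consts D := by
    rw [h1]
    exact IntermediateField.mem_top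
  exact h2

theorem war_core [IsAlgClosed k] [CharZero k] {K : Type} [Field K] [Algebra k K]
    {F : ι → MvPolynomial (Fin (n + 1)) k}
    {s N : ℕ} (hF : ∀ e, IsPowSum s N (F e)) (hN1 : 1 ≤ N) {w : ℕ}
    {y : Fin (n + 1) → K} (hy : SubVar F K w y) (hcomp : IsComponent F y) (D : Derivation k K K)
    (hDc : ∀ (m d : ℕ) (U : Fin (m + 1) → K) (c : Fin (m + 1) → k), m + 1 ≤ s → N ≤ d →
      (∀ j, U j ≠ 0) → (∀ j, c j ≠ 0) → ∑ j, c j • U j ^ d = 0 →
      LinearIndependent k (fun l => c ((Fin.last m).succAbove l) •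
        U ((Fin.last m).succAbove l) ^ d) →
      ∀ a b, D ((c a • U a ^ d) / (c b • U b ^ d)) = 0) :
    D ∈ Submodule.span K {δ : Derivation k K K | Rul δ} := by
  classical
  obtain ⟨Z, Q, hZ, hQ, hx⟩ := war_eqs hF hN1 hy.mem D hDc
  obtain ⟨i0, hi0⟩ := Function.ne_iff.1 hy.ne
  have hi0' : y i0 ≠ 0 := hi0
  obtain ⟨v, hvd⟩ : ∃ v : Fin (n + 1) → K, v = fun l => D (y l / y i0) := ⟨_, rfl⟩
  have hv0 : v i0 = 0 := by
    rw [hvd]
    show D (y i0 / y i0) = 0
    rw [div_self hi0']
    exact D.map_one_eq_zero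
  have hlv : ∀ l : Fin (n + 1) → k, lin l v = D (lin l y / y i0) := by
    intro l
    rw [hvd, lin_der D l (fun i => y i / y i0), lin_div]
  have hZv : ∀ l ∈ Z, lin l v = 0 := by
    intro l hl
    rw [hlv, hZ l hl, zero_div, map_zero]
  have hQv : ∀ p ∈ Q, lin p.1 v = (lin p.1 y / lin p.2 y) * lin p.2 v := by
    intro p hp
    obtain ⟨h1, h2, h3⟩ := hQ p hp
    have h4 : lin p.1 y / y i0 = (lin p.1 y / lin p.2 y) * (lin p.2 y / y i0) := by
      field_simp
    rw [hlv, hlv, h4, D.leibniz, h3, smul_zero, add_zero, smul_eq_mul]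
  obtain ⟨E, hE⟩ : ∃ E : IntermediateField k K,
      E = IntermediateField.adjoin k {z | ∃ p ∈ Q, z = lin p.1 y / lin p.2 y} := ⟨_, rfl⟩
  let B := Module.Basis.ofVectorSpace E K
  have hfl := fun i => flow_der hy hcomp hi0' v hv0 Z Q hZ hZv
    (fun p hp => ⟨(hQ p hp).1, (hQ p hp).2.1⟩) hQv hx E hE (B.coord i)
  choose δ hδs hδu using hfl
  let T := Finset.univ.biUnion fun l => (B.repr (v l)).support
  have hsum : ∀ l, ∑ i ∈ T, B i * ((B.repr (v l) i : E) : K) = v l := by
    intro l
    have h1 : ∑ i ∈ T, (B.repr (v l) i) • B i = v l := by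
      have h2 := B.linearCombination_repr (v l)
      rw [Finsupp.linearCombination_apply, Finsupp.sum_of_support_subset (s := T)] at h2
      · exact h2
      · intro i hi
        exact Finset.mem_biUnion.2 ⟨l, Finset.mem_univ _, hi⟩
      · intro i _
        exact zero_smul _ _
    rw [← h1]
    conv_lhs => rw [h1]
    refine Finset.sum_congr rfl fun i _ => ?_
    rw [Algebra.smul_def, mul_comm]
    rfl
  have hD : D = ∑ i ∈ T, B i • δ i := by
    have h1 : D - ∑ i ∈ T, B i • δ i = 0 := by
      refine der_ext hy.gen hi0' _ fun l => ?_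
      have h2 : (∑ i ∈ T, B i • δ i : Derivation k K K) (y l / y i0) = v l := by
        rw [← hsum l]
        rw [der_sum_apply]
        refine Finset.sum_congr rfl fun i _ => ?_
        rw [Derivation.smul_apply, hδu, smul_eq_mul]
        rfl
      rw [Derivation.sub_apply, h2, hvd]
      exact sub_self _
    exact sub_eq_zero.1 h1
  rw [hD]
  exact Submodule.sum_mem _ fun i _ => Submodule.smul_mem _ _ (hδs i)

end Pool.Agent.Y564.CF
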