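import Pool.Agent.Y221.CF.Stm
import Pool.Agent.Y564.CF.Core

/-!
Project CF, job WAR (helper564).
-/

set_option autoImplicit false
set_option linter.overlappingInstances false
set_option linter.unusedSectionVars false

open FF IntermediateField Pool.Agent.W603.LV

namespace Pool.Agent.Y564.CF

open Pool.Agent.W602.GT Pool.Agent.TH466.QG Pool.Agent.TH466.QT Pool.Agent.Y221.CF

theorem war : StmWar := by
  intro k _ _ _ n ι F s N hF hN K _ _ w y hy hcomp D hD
  have h := war_core hF hN hy hcomp D (fun m d U c h1 h2 h3 h4 h5 h6 a b =>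
    hD _ ⟨m, d, U, c, a, b, ⟨h1, h2, h3, h4, h5, h6⟩, rfl⟩)
  obtain ⟨t, c, δ, hδ⟩ := Submodule.mem_span_set'.1 h
  refine ⟨t, c, fun i => (δ i : Derivation k K K), fun i => (δ i).2, fun x => ?_⟩
  rw [← hδ, der_sum_apply]
  exact Finset.sum_congr rfl fun i _ => rfl

end Pool.Agent.Y564.CF
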